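import Pool.Agent.Helper40.OL.Spec

/-!
# Blueprint OL, part SINF
-/

set_option autoImplicit false

namespace Pool.Agent.Helper39.OL

open Pool.Agent.Helper40.OL

lemma Y_one_nonempty (hY : S_Y) (n : ℕ) : (Y 1 (n + 1)).Nonempty := by
  obtain ⟨-, h1, -, h3, -⟩ := hY 1 le_rfl
  induction n with
  | zero => exact h1
  | succ n ih =>
    obtain ⟨y, hy⟩ := ih
    exact ⟨y * tau 0, h3 (n + 1) y hy 0 (by omega)⟩

theorem sinf_thm (hY : S_Y) : S_SINF := by
  obtain ⟨-, h1, -, h3, h4, -, -, -, h8, -⟩ := hY 1 le_rfl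
  constructor
  · intro hfin
    -- `SS` has at least `card + 1` elements
    have hsub : ∀ n : ℕ, n ≤ hfin.toFinset.card := by
      intro n
      obtain ⟨y, hy⟩ := Y_one_nonempty hY n
      obtain ⟨hm, h0, hn, -⟩ := h8 (n + 1) y hy
      have : ((Finset.range n).image (fun i : ℕ => y.f ((i + 1 : ℕ) : ℝ))).card ≤ hfin.toFinset.card := by
        apply Finset.card_le_card
        intro s hs
        rw [Finset.mem_image] at hs
        obtain ⟨i, hi, rfl⟩ := hs
        rw [Finset.mem_range] at hi
        rw [Set.Finite.mem_toFinset]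
        refine ⟨?_, ?_, n + 1, y, hy, i + 1, by omega, rfl⟩
        · rw [← h0]; apply hm; push_cast; positivity
        · have e : ((1 : ℕ) : ℝ) = 1 := by norm_num
          rw [e] at hn
          rw [← hn]; apply hm
          exact_mod_cast (by omega : i + 1 < n + 1)
      rwa [Finset.card_image_of_injective, Finset.card_range] at this
      intro a b hab
      have := hm.injective hab
      have : a + 1 = b + 1 := by exact_mod_cast this
      omega
    have := hsub (hfin.toFinset.card + 1)
    omega
  · rintro g hg s ⟨hs0, hs1, n, y, hy, k, hk, rfl⟩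
    have hgy := h4 n y hy g hg
    obtain ⟨hm, h0, hn, -⟩ := h8 n y hy
    obtain ⟨hm', h0', hn', -⟩ := h8 n (g * y) hgy
    have e : ((1 : ℕ) : ℝ) = 1 := by norm_num
    rw [e] at hn hn'
    refine ⟨?_, ?_, n, g * y, hgy, k, hk, rfl⟩
    · show 0 < (g * y).f k
      rw [← h0']
      apply hm'
      rw [← h0] at hs0
      exact hm.lt_iff_lt.mp hs0
    · show (g * y).f k < 1
      rw [← hn']
      apply hm'
      rw [← hn] at hs1
      exact hm.lt_iff_lt.mp hs1

end Pool.Agent.Helper39.OL
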