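import Pool.Agent.Helper40.OL.Spec

/-!
# Blueprint OL, part TUP
-/

set_option autoImplicit false

namespace Pool.Agent.Helper39.OL

open Pool.Agent.Helper40.OL

/-- `Y` is closed under right multiplication by forests. -/
lemma Y_mul_Fo (hY : S_Y) {r : ℕ} (hr : 1 ≤ r) {n N : ℕ} {p : E} (hp : Fo n N p) :
    ∀ y ∈ Y r n, y * p ∈ Y r N := by
  obtain ⟨-, -, hk, ht, -⟩ := hY r hr
  induction hp with
  | base h => intro y hy; exact hk _ y hy _ h
  | @step n N i g hi _ ih =>
    intro y hy
    have := ih (y * tau i) (ht n y hy i hi)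
    rwa [mul_assoc] at this

/-- Common refinement: all points of `A` are images of integers under one `y`. -/
lemma common_ref (hY : S_Y) (hI : S_INT) (A : Finset ℝ) (hA : ∀ s ∈ A, s ∈ SS) :
    ∃ N, ∃ y ∈ Y 1 N, ∀ s ∈ A, ∃ k : ℕ, k ≤ N ∧ y.f k = s := by
  classical
  induction A using Finset.induction_on with
  | empty =>
    obtain ⟨-, ⟨y, hy⟩, -⟩ := hY 1 le_rfl
    exact ⟨1, y, hy, by simp⟩
  | insert a A ha ih =>
    obtain ⟨N, y, hy, hyA⟩ := ih (fun s hs => hA s (Finset.mem_insert_of_mem hs))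
    obtain ⟨-, -, n', y', hy', k', hk', hs'⟩ := hA a (Finset.mem_insert_self a A)
    obtain ⟨-, -, -, -, -, -, he, -⟩ := hY 1 le_rfl
    obtain ⟨L, p, p', hp, hp', hpp⟩ := he N n' y hy y' hy'
    refine ⟨L, y * p, Y_mul_Fo hY le_rfl hp y hy, ?_⟩
    intro s hs
    rw [Finset.mem_insert] at hs
    rcases hs with rfl | hs
    · obtain ⟨-, -, -, -, h5, -⟩ := hI.1 n' L p' hp'
      obtain ⟨l, hl, hl'⟩ := h5 k' hk'
      refine ⟨l, hl, ?_⟩
      rw [hpp]
      show y'.f (p'.f l) = s
      rw [hl', hs']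
    · obtain ⟨k, hk, hk2⟩ := hyA s hs
      obtain ⟨-, -, -, -, h5, -⟩ := hI.1 N L p hp
      obtain ⟨l, hl, hl'⟩ := h5 k hk
      refine ⟨l, hl, ?_⟩
      show y.f (p.f l) = s
      rw [hl', hk2]

theorem tup_thm (hY : S_Y) (hM : S_MERGE) (hI : S_INT) : S_TUP := by
  classical
  intro A hA
  obtain ⟨N, y, hy, hyA⟩ := common_ref hY hI A hA
  obtain ⟨-, -, -, -, -, -, -, -, h8, h9⟩ := hY 1 le_rfl
  obtain ⟨hm, h0, hN, h1N⟩ := h8 N y hy
  have e1 : ((1 : ℕ) : ℝ) = 1 := by norm_num
  rw [e1] at hN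
  -- the set of the indices
  set J : Finset ℕ := (Finset.range (N + 1)).filter (fun k => y.f (k : ℝ) ∈ A) with hJ
  have hinj : Function.Injective (fun k : ℕ => y.f (k : ℝ)) := by
    intro a b hab
    exact_mod_cast hm.injective hab
  have hJA : J.image (fun k : ℕ => y.f (k : ℝ)) = A := by
    ext s
    rw [Finset.mem_image]
    constructor
    · rintro ⟨k, hk, rfl⟩
      exact (Finset.mem_filter.mp hk).2
    · intro hs
      obtain ⟨k, hk, hk2⟩ := hyA s hs
      refine ⟨k, ?_, hk2⟩
      rw [hJ, Finset.mem_filter, Finset.mem_range]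
      exact ⟨by omega, by rw [hk2]; exact hs⟩
  have hJcard : J.card = A.card := by
    rw [← hJA, Finset.card_image_of_injective _ hinj]
  have h0J : (0 : ℕ) ∉ J := by
    intro h
    have h' := hA _ (Finset.mem_filter.mp h).2
    have : (0 : ℝ) < y.f ((0 : ℕ) : ℝ) := h'.1
    rw [Nat.cast_zero, h0] at this
    exact lt_irrefl _ this
  have hNJ : N ∉ J := by
    intro h
    have h' := hA _ (Finset.mem_filter.mp h).2
    have : y.f (N : ℝ) < 1 := h'.2.1
    rw [hN] at this
    exact lt_irrefl _ this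
  set J' : Finset ℕ := insert 0 (insert N J) with hJ'
  have hJ'card : J'.card = A.card + 1 + 1 := by
    rw [hJ', Finset.card_insert_of_notMem, Finset.card_insert_of_notMem hNJ, hJcard]
    rw [Finset.mem_insert]
    rintro (h | h)
    · omega
    · exact h0J h
  have hJ'le : ∀ x ∈ J', x ≤ N := by
    intro x hx
    rw [hJ', Finset.mem_insert, Finset.mem_insert] at hx
    rcases hx with rfl | rfl | hx
    · exact Nat.zero_le _
    · exact le_rfl
    · have := (Finset.mem_filter.mp hx).1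
      rw [Finset.mem_range] at this; omega
  set o := J'.orderEmbOfFin hJ'card with ho
  have hrange : ∀ x, x ∈ J' ↔ ∃ i, o i = x := by
    intro x
    have := Finset.range_orderEmbOfFin J' hJ'card
    constructor
    · intro hx
      have : x ∈ Set.range (J'.orderEmbOfFin hJ'card) := by rw [this]; exact hx
      exact this
    · rintro ⟨i, rfl⟩
      exact Finset.orderEmbOfFin_mem J' hJ'card i
  have ho0 : o ⟨0, by omega⟩ = 0 := by
    obtain ⟨i, hi⟩ := (hrange 0).mp (by rw [hJ']; exact Finset.mem_insert_self _ _)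
    have : o ⟨0, by omega⟩ ≤ o i := o.monotone (Fin.mk_le_of_le_val (Nat.zero_le _))
    omega
  have hoN : o ⟨A.card + 1, by omega⟩ = N := by
    obtain ⟨i, hi⟩ := (hrange N).mp (by rw [hJ']; exact Finset.mem_insert_of_mem (Finset.mem_insert_self _ _))
    have h1 : o i ≤ o ⟨A.card + 1, by omega⟩ := o.monotone (by
      rw [Fin.le_def]; exact Nat.lt_succ_iff.mp i.2)
    have h2 : o ⟨A.card + 1, by omega⟩ ≤ N := hJ'le _ ((hrange _).mpr ⟨_, rfl⟩)
    omega
  let j : ℕ → ℕ := fun i => if h : i < A.card + 1 + 1 then o ⟨i, h⟩ else 0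
  have hj : ∀ i (h : i < A.card + 1 + 1), j i = o ⟨i, h⟩ := fun i h => dif_pos h
  have hjm : StrictMonoOn j (Set.Iic (A.card + 1)) := by
    intro a ha b hb hab
    rw [Set.mem_Iic] at ha hb
    rw [hj a (by omega), hj b (by omega)]
    exact o.strictMono (by rw [Fin.lt_def]; exact hab)
  obtain ⟨w, hw, hwj⟩ := hM A.card N j hjm (by rw [hj 0 (by omega)]; exact ho0)
    (by rw [hj _ (by omega)]; exact hoN)
  have hwinv : ∀ i : ℕ, i ≤ A.card + 1 → (w⁻¹).f (i : ℝ) = j i := by
    intro i hi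
    rw [E.inv_f, Equiv.Perm.inv_eq_iff_eq]
    exact (hwj i hi).symm
  have hyw : ∀ i : ℕ, i ≤ A.card + 1 → (y * w⁻¹).f (i : ℝ) = y.f (j i : ℝ) := by
    intro i hi
    show y.f ((w⁻¹).f (i : ℝ)) = _
    rw [hwinv i hi]
  refine ⟨y * w⁻¹, ?_, ?_⟩
  · apply h9 (A.card + 1) N y hy w hw
    intro i hi
    have : i = 0 ∨ i = 1 := by omega
    rcases this with rfl | rfl
    · refine ⟨0, by omega, ?_⟩
      rw [hyw 0 (by omega), hj 0 (by omega), ho0, Nat.cast_zero, h0]
    · refine ⟨A.card + 1, le_rfl, ?_⟩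
      rw [hyw _ le_rfl, hj _ (by omega), hoN, hN, Nat.cast_one]
  · intro s
    constructor
    · intro hs
      rw [← hJA, Finset.mem_image] at hs
      obtain ⟨k, hk, rfl⟩ := hs
      obtain ⟨i, hi⟩ := (hrange k).mp (by
        rw [hJ']; exact Finset.mem_insert_of_mem (Finset.mem_insert_of_mem hk))
      have hi0 : (i : ℕ) ≠ 0 := by
        intro h
        have : i = ⟨0, by omega⟩ := Fin.ext h
        rw [this, ho0] at hi
        rw [← hi] at hk; exact h0J hk
      have hiN : (i : ℕ) ≠ A.card + 1 := by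
        intro h
        have : i = ⟨A.card + 1, by omega⟩ := Fin.ext h
        rw [this, hoN] at hi
        rw [← hi] at hk; exact hNJ hk
      have hi2 := i.2
      refine ⟨i, by omega, by omega, ?_⟩
      rw [hyw _ (by omega), hj _ hi2]
      show y.f (k : ℝ) = y.f ((o i : ℕ) : ℝ)
      rw [hi]
    · rintro ⟨i, hi1, hi2, rfl⟩
      rw [hyw _ (by omega), hj i (by omega)]
      have hmem : o ⟨i, by omega⟩ ∈ J' := (hrange _).mpr ⟨_, rfl⟩
      have hne0 : o ⟨i, by omega⟩ ≠ 0 := by
        intro h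
        have := o.injective (h.trans ho0.symm)
        rw [Fin.mk.injEq] at this
        omega
      have hneN : o ⟨i, by omega⟩ ≠ N := by
        intro h
        have := o.injective (h.trans hoN.symm)
        rw [Fin.mk.injEq] at this
        omega
      rw [hJ', Finset.mem_insert, Finset.mem_insert] at hmem
      rcases hmem with h | h | h
      · exact absurd h hne0
      · exact absurd h hneN
      · exact (Finset.mem_filter.mp h).2

end Pool.Agent.Helper39.OL
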